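import Pool.Agent.Helper61.LN.Goals

/-!
PROJECT LN: packet LN-SRF (helper97): the connected sum of a surface boundary with the trefoil knot.
-/

set_option autoImplicit false

namespace Pool.Agent.Helper97.LN.SRF

open Pool.Agent.Helper31.Sk Pool.Agent.Helper35.Skl Pool.Agent.Helper61.LN

theorem legal_dbl1 (i : ℕ) (g : Gen) (m : ℕ) (h : i + g.src ≤ m) :
    Legal (2 * m) (dbl1 (i, g)) (2 * (m - g.src + g.tgt)) := by
  cases g <;> simp only [dbl1, Legal, Gen.src, Gen.tgt] at * <;> omega

theorem legal_dbl (w : Word) : ∀ {m n : ℕ}, Legal m w n → Legal (2 * m) (dbl w) (2 * n) := by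
  induction w with
  | nil =>
    intro m n h
    simp only [Legal] at h
    subst h
    rfl
  | cons s w ih =>
    intro m n h
    obtain ⟨i, g⟩ := s
    obtain ⟨h1, h2⟩ := h
    have e : dbl ((i, g) :: w) = dbl1 (i, g) ++ dbl w := by simp [dbl]
    rw [e]
    exact legal_append.2 ⟨_, legal_dbl1 i g m h1, ih h2⟩

/-- cups at the place `i` -/
theorem legal_cupr (i : ℕ) (k : ℕ) : ∀ m : ℕ, i ≤ m →
    Legal m (List.replicate k (i, Gen.cup)) (m + 2 * k) := by
  induction k with
  | zero => intro m _; rfl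
  | succ k ih =>
    intro m h
    rw [List.replicate_succ]
    refine ⟨by simpa [Gen.src] using h, ?_⟩
    have := ih (m + 2) (by omega)
    have e : m + 2 * (k + 1) = m + 2 + 2 * k := by ring
    rw [e]
    simpa [Gen.src, Gen.tgt] using this

theorem lt0 : Legal 8 (dbl t0) 0 := lgt_of rfl

/-- the cups after the bands of the trefoil knot -/
theorem cupsC (h : S_ICR) (k : ℕ) : ∀ r : ℕ,
    Iso (9 + r) (1 + r + 2 * k) (dbl t0 ++ List.replicate k (1, Gen.cup))
      (List.replicate k (9, Gen.cup) ++ dbl t0) := by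
  induction k with
  | zero =>
    intro r
    simp only [List.replicate_zero, List.append_nil, List.nil_append]
    exact iso_refl _ _ _
  | succ k ih =>
    intro r
    have h1 := h 8 0 (dbl t0) lt0 1 r .cup
    have e1 : 8 + 1 + Gen.cup.src + r = 9 + r := by simp [Gen.src]
    have e2 : 0 + 1 + Gen.cup.tgt + r = 3 + r := by simp [Gen.tgt]
    rw [e1, e2] at h1
    have h2 := iso_right (v := List.replicate k (1, Gen.cup)) (p := 1 + r + 2 * (k + 1)) h1 (by
      have := legal_cupr 1 k (3 + r) (by omega)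
      have e : 1 + r + 2 * (k + 1) = 3 + r + 2 * k := by ring
      rw [e]
      exact this)
    have h3 := ih (r + 2)
    have h4 := iso_left (u := [(9, Gen.cup)]) (k := 9 + r) h3 (by
      refine ⟨by simp [Gen.src], ?_⟩
      simp only [Legal, Gen.src, Gen.tgt]
      omega)
    have e3 : 1 + (r + 2) + 2 * k = 1 + r + 2 * (k + 1) := by ring
    rw [e3] at h4
    have f1 : dbl t0 ++ List.replicate (k + 1) (1, Gen.cup) =
        dbl t0 ++ [(0 + 1, Gen.cup)] ++ List.replicate k (1, Gen.cup) := by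
      rw [List.replicate_succ]; simp
    have f2 : (8 + 1, Gen.cup) :: dbl t0 ++ List.replicate k (1, Gen.cup) =
        [(9, Gen.cup)] ++ (dbl t0 ++ List.replicate k (1, Gen.cup)) := by
      simp
    have f3 : List.replicate (k + 1) (9, Gen.cup) ++ dbl t0 =
        [(9, Gen.cup)] ++ (List.replicate k (9, Gen.cup) ++ dbl t0) := by
      rw [List.replicate_succ]; simp
    rw [f2] at h2
    rw [f1, f3]
    exact iso_trans h2 h4

/-- one cup moves to the left -/
theorem cupsE0 : Iso 2 12
    [(1, Gen.cup), (1, Gen.cup), (1, Gen.cup), (1, Gen.cup), (9, Gen.cup)]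
    [(1, Gen.cup), (1, Gen.cup), (1, Gen.cup), (1, Gen.cup), (1, Gen.cup)] := by
  refine iso_trans (w' := [(1, Gen.cup), (1, Gen.cup), (1, Gen.cup), (7, Gen.cup), (1, Gen.cup)])
    (stq 3 (Or.inl (Elem.comm 1 6 .cup .cup)) rfl rfl rfl) ?_
  refine iso_trans (w' := [(1, Gen.cup), (1, Gen.cup), (5, Gen.cup), (1, Gen.cup), (1, Gen.cup)])
    (stq 2 (Or.inl (Elem.comm 1 4 .cup .cup)) rfl rfl rfl) ?_
  refine iso_trans (w' := [(1, Gen.cup), (3, Gen.cup), (1, Gen.cup), (1, Gen.cup), (1, Gen.cup)])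
    (stq 1 (Or.inl (Elem.comm 1 2 .cup .cup)) rfl rfl rfl) ?_
  exact stq 0 (Or.inl (Elem.comm 1 0 .cup .cup)) rfl rfl rfl

theorem cupsE (s : ℕ) : Iso (2 + s) (12 + s) (List.replicate 4 (1, Gen.cup) ++ [(9, Gen.cup)])
    (List.replicate 5 (1, Gen.cup)) := by
  have h := iso_sh 0 s cupsE0
  rw [sh_zero, sh_zero] at h
  exact h

theorem cupsD (k : ℕ) : ∀ s : ℕ, Iso (2 + s) (10 + s + 2 * k)
    (List.replicate 4 (1, Gen.cup) ++ List.replicate k (9, Gen.cup))
    (List.replicate (4 + k) (1, Gen.cup)) := by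
  induction k with
  | zero =>
    intro s
    simp only [List.replicate_zero, List.append_nil, Nat.add_zero]
    exact iso_refl _ _ _
  | succ k ih =>
    intro s
    have h1 := iso_right (v := List.replicate k (9, Gen.cup)) (p := 10 + s + 2 * (k + 1))
      (cupsE s) (by
        have := legal_cupr 9 k (12 + s) (by omega)
        have e : 10 + s + 2 * (k + 1) = 12 + s + 2 * k := by ring
        rw [e]
        exact this)
    have h2 := iso_left (u := [(1, Gen.cup)]) (k := 2 + s) (ih (s + 2)) (by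
      refine ⟨by simp [Gen.src]; omega, ?_⟩
      simp only [Legal, Gen.src, Gen.tgt]
      omega)
    have e3 : 10 + (s + 2) + 2 * k = 10 + s + 2 * (k + 1) := by ring
    rw [e3] at h2
    have f1 : List.replicate 4 (1, Gen.cup) ++ List.replicate (k + 1) (9, Gen.cup) =
        List.replicate 4 (1, Gen.cup) ++ [(9, Gen.cup)] ++ List.replicate k (9, Gen.cup) := by
      rw [List.replicate_succ (n := k)]; simp
    have f2 : List.replicate 5 (1, Gen.cup) ++ List.replicate k (9, Gen.cup) =
        [(1, Gen.cup)] ++ (List.replicate 4 (1, Gen.cup) ++ List.replicate k (9, Gen.cup)) := by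
      rw [show (5 : ℕ) = 4 + 1 from rfl, List.replicate_succ]; simp
    have f3 : List.replicate (4 + (k + 1)) (1, Gen.cup) =
        [(1, Gen.cup)] ++ List.replicate (4 + k) (1, Gen.cup) := by
      rw [show 4 + (k + 1) = (4 + k) + 1 from rfl, List.replicate_succ]; simp
    rw [f2] at h1
    rw [f1, f3]
    exact iso_trans h1 h2

/-- the cap of the round circle -/
theorem capE : Iso 0 8
    [(0, Gen.cup), (1, Gen.cup), (1, Gen.cup), (1, Gen.cup), (1, Gen.cup), (8, Gen.cap)]
    [(0, Gen.cup), (1, Gen.cup), (1, Gen.cup), (1, Gen.cup)] := by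
  refine iso_trans (w' := [(0, Gen.cup), (1, Gen.cup), (1, Gen.cup), (1, Gen.cup), (6, Gen.cap),
    (1, Gen.cup)]) (stq 4 (Or.inl (Elem.comm 1 5 .cup .cap)) rfl rfl rfl) ?_
  refine iso_trans (w' := [(0, Gen.cup), (1, Gen.cup), (1, Gen.cup), (4, Gen.cap), (1, Gen.cup),
    (1, Gen.cup)]) (stq 3 (Or.inl (Elem.comm 1 3 .cup .cap)) rfl rfl rfl) ?_
  refine iso_trans (w' := [(0, Gen.cup), (1, Gen.cup), (2, Gen.cap), (1, Gen.cup), (1, Gen.cup),
    (1, Gen.cup)]) (stq 2 (Or.inl (Elem.comm 1 1 .cup .cap)) rfl rfl rfl) ?_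
  exact stq 1 (Or.inl (Elem.zig 1)) rfl rfl rfl

theorem t (h : S_ICR) : S_SRF := by
  intro n t ht
  rcases Nat.eq_zero_or_pos n with rfl | hn
  · -- `h = 0`
    refine ⟨t0, lgt_of rfl, ?_⟩
    have e1 : surf 0 t = unknot := if_pos rfl
    rw [e1]
    have h1 := h 8 0 (dbl t0) lt0 0 0 .cap
    have h2 := iso_left (u := [(0, Gen.cup), (1, Gen.cup), (1, Gen.cup), (1, Gen.cup),
      (1, Gen.cup)]) (k := 0) (n := 0) (m := 10) h1 (lgt_of rfl)
    have h3 := iso_right (v := dbl t0) (p := 0) capE lt0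
    exact iso_trans h2 h3
  · -- `h ≥ 1`
    refine ⟨t0 ++ t, ?_, ?_⟩
    · have l1 : Legal 4 t0 0 := lgt_of rfl
      have l2 := leg_right t0 4 0 (4 * n) l1
      have e : 4 * (n + 1) = 4 + 4 * n := by ring
      rw [e]
      refine legal_append.2 ⟨4 * n, ?_, ht⟩
      have e2 : 0 + 4 * n = 4 * n := by ring
      rw [e2] at l2
      exact l2
    · have hs : surf n t = (0, Gen.cup) :: (List.replicate (4 * n - 1) (1, Gen.cup) ++ dbl t) :=
        if_neg (by omega)
      have hs' : surf (n + 1) (t0 ++ t) =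
          (0, Gen.cup) :: (List.replicate (4 * (n + 1) - 1) (1, Gen.cup) ++ dbl (t0 ++ t)) :=
        if_neg (by omega)
      have hd : dbl (t0 ++ t) = dbl t0 ++ dbl t := by simp [dbl]
      have ek : 4 * (n + 1) - 1 = 4 + (4 * n - 1) := by omega
      set k := 4 * n - 1 with hk
      have l3 : Legal (8 * n) (dbl t) 0 := by
        have := legal_dbl t ht
        have e : 2 * (4 * n) = 8 * n := by ring
        rw [e] at this
        exact this
      have h1 := cupsC h k 1
      have e1 : 1 + 1 + 2 * k = 8 * n := by omega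
      rw [e1] at h1
      have h2 := iso_right h1 l3
      have h3 := iso_left (u := [(0, Gen.cup), (1, Gen.cup), (1, Gen.cup), (1, Gen.cup),
        (1, Gen.cup)]) (k := 0) h2 (lgt_of rfl)
      have h4 := cupsD k 0
      have l4 : Legal (10 + 0 + 2 * k) (dbl t0 ++ dbl t) 0 := by
        have l5 := leg_right (dbl t0) 8 0 (8 * n) lt0
        refine legal_append.2 ⟨8 * n, ?_, l3⟩
        have e2 : 10 + 0 + 2 * k = 8 + 8 * n := by omega
        have e3 : 0 + 8 * n = 8 * n := by ring
        rw [e3] at l5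
        rw [e2]
        exact l5
      have h5 := iso_right h4 l4
      have h6 := iso_left (u := [(0, Gen.cup)]) (k := 0) h5 (lgt_of rfl)
      rw [hs, hs', hd, ek]
      have f1 : con T2 ((0, Gen.cup) :: (List.replicate k (1, Gen.cup) ++ dbl t)) =
          [(0, Gen.cup), (1, Gen.cup), (1, Gen.cup), (1, Gen.cup), (1, Gen.cup)] ++
            (dbl t0 ++ List.replicate k (1, Gen.cup) ++ dbl t) := by
        simp [con, T2]
      have f2 : [(0, Gen.cup), (1, Gen.cup), (1, Gen.cup), (1, Gen.cup), (1, Gen.cup)] ++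
            (List.replicate k (9, Gen.cup) ++ dbl t0 ++ dbl t) =
          [(0, Gen.cup)] ++ (List.replicate 4 (1, Gen.cup) ++ List.replicate k (9, Gen.cup) ++
            (dbl t0 ++ dbl t)) := by
        rw [show List.replicate 4 (1, Gen.cup) = [(1, Gen.cup), (1, Gen.cup), (1, Gen.cup),
          (1, Gen.cup)] from rfl]
        simp
      have f3 : (0, Gen.cup) :: (List.replicate (4 + k) (1, Gen.cup) ++ (dbl t0 ++ dbl t)) =
          [(0, Gen.cup)] ++ (List.replicate (4 + k) (1, Gen.cup) ++ (dbl t0 ++ dbl t)) := rfl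
      rw [f1, f3]
      rw [f2] at h3
      exact iso_trans h3 h6

end Pool.Agent.Helper97.LN.SRF
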