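import Pool.Agent.Helper64.LN.GoalsC

/-!
# LN-EX1: small neighbourhoods with frontier disjoint from a totally disconnected closed set
-/

open Topology Filter Set

namespace Pool.Agent.Helper97.LN

open Pool.Agent.Helper64.LN

theorem goalEX1 : GoalEX1 := by
  intro X _ _ _ E hE hT x U hU
  have hxU : x ∈ interior U := mem_interior_iff_mem_nhds.2 hU
  by_cases hx : x ∈ E
  · obtain ⟨U', hU', hxU', hcU', hcomp⟩ := exists_open_between_and_isCompact_closure
      (isCompact_singleton (x := x)) isOpen_interior (singleton_subset_iff.2 hxU)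
    have hxU'' : x ∈ U' := singleton_subset_iff.1 hxU'
    set E' : Set X := E ∩ closure U' with hE'
    have hE'c : IsCompact E' := hcomp.inter_left hE
    haveI : CompactSpace E' := isCompact_iff_compactSpace.1 hE'c
    haveI : TotallyDisconnectedSpace E' := by
      rw [totallyDisconnectedSpace_subtype_iff]
      intro t ht hp
      exact hT t (ht.trans inter_subset_left) hp
    have hxE' : x ∈ E' := ⟨hx, subset_closure hxU''⟩
    obtain ⟨G, hG, hxG, hGU⟩ := compact_exists_isClopen_in_isOpen
      (X := E') (x := ⟨x, hxE'⟩) (U := Subtype.val ⁻¹' U') (hU'.preimage continuous_subtype_val)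
      hxU''
    have c1 : IsCompact (Subtype.val '' G) := (hG.1.isCompact).image continuous_subtype_val
    have c2 : IsCompact (Subtype.val '' Gᶜ) :=
      (hG.2.isClosed_compl.isCompact).image continuous_subtype_val
    have o : IsOpen (U' \ (Subtype.val '' Gᶜ)) := hU'.sdiff c2.isClosed
    have s : (Subtype.val '' G) ⊆ U' \ (Subtype.val '' Gᶜ) := by
      rintro _ ⟨y, hy, rfl⟩
      refine ⟨hGU hy, ?_⟩
      rintro ⟨z, hz, hzy⟩
      have : z = y := Subtype.ext hzy
      subst this
      exact hz hy
    obtain ⟨V, hV, hGV, hcV, hVc⟩ := exists_open_between_and_isCompact_closure c1 o s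
    refine ⟨V, hV, hGV ⟨⟨x, hxE'⟩, hxG, rfl⟩, ?_, hVc, ?_⟩
    · intro y hy
      exact interior_subset (hcU' (subset_closure (hcV (subset_closure hy)).1))
    · rw [disjoint_left]
      intro y hy hyE
      rw [hV.frontier_eq] at hy
      have h1 := hcV hy.1
      have h2 : y ∈ E' := ⟨hyE, subset_closure h1.1⟩
      have h3 : (⟨y, h2⟩ : E') ∈ G := by
        by_contra h4
        exact h1.2 ⟨⟨y, h2⟩, h4, rfl⟩
      exact hy.2 (hGV ⟨⟨y, h2⟩, h3, rfl⟩)
  · have o : IsOpen (interior U ∩ Eᶜ) := isOpen_interior.inter hE.isOpen_compl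
    obtain ⟨V, hV, hxV, hcV, hVc⟩ := exists_open_between_and_isCompact_closure
      (isCompact_singleton (x := x)) o (singleton_subset_iff.2 ⟨hxU, hx⟩)
    refine ⟨V, hV, singleton_subset_iff.1 hxV, ?_, hVc, ?_⟩
    · intro y hy
      exact interior_subset (hcV (subset_closure hy)).1
    · rw [disjoint_left]
      intro y hy hyE
      exact (hcV (frontier_subset_closure hy)).2 hyE

end Pool.Agent.Helper97.LN
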